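import Pool.Agent.H94.AS7

set_option autoImplicit false

namespace Pool.Agent.Results.MP_17c4bf_an.FactorQ2

open Pool.Agent.H94.AS

theorem result : ∃ (E F : Type)
    (_ : AddCommGroup E) (_ : Module ℝ E) (_ : TopologicalSpace E) (_ : IsTopologicalAddGroup E)
    (_ : ContinuousSMul ℝ E) (_ : LocallyConvexSpace ℝ E) (_ : T2Space E)
    (_ : AddCommGroup F) (_ : Module ℝ F) (_ : TopologicalSpace F) (_ : IsTopologicalAddGroup F)
    (_ : ContinuousSMul ℝ F) (_ : LocallyConvexSpace ℝ F) (_ : T2Space F),
    IsWeakAsplund (E × F) ∧ ¬ IsWeakAsplund E := by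
  obtain ⟨A, h1, h2⟩ := core
  exact ⟨EE (X A), FF, inferInstance, inferInstance, inferInstance, inferInstance, inferInstance,
    inferInstance, inferInstance, inferInstance, inferInstance, inferInstance, inferInstance,
    inferInstance, inferInstance, inferInstance, ⟨weak_of h1, h2⟩⟩

end Pool.Agent.Results.MP_17c4bf_an.FactorQ2
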